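import Pool.Agent.Run7.h520.MZ.I

/-! Piece INV: similar tuples have the same type. -/

set_option autoImplicit false

namespace Run7.h520.MZ

open FirstOrder FirstOrder.Language

/-- a term of the language is a variable -/
theorem inv_term_var {σ : Type} (t : LZ.Term σ) : ∃ v : σ, t = Term.var v := by
  cases t with
  | var v => exact ⟨v, rfl⟩
  | func f _ => exact f.elim

theorem inv_lc_one {n : ℕ} (s : Fin n → M0) :
    lc s (Finsupp.equivFunOnFinite.symm fun _ => 1) = ∑ i, val (s i) := by
  unfold lc
  rw [Finsupp.linearCombination_apply, Finsupp.sum_fintype _ _ (by simp)]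
  simp

theorem inv_aux (hB : S_BAS) (hF : S_FORTH) {α : Type} [Finite α] {n : ℕ}
    (φ : LZ.BoundedFormula α n) :
    ∀ (v v' : α → M0) (x x' : Fin n → M0),
      Sim (Sum.elim v x) (Sum.elim v' x') → (φ.Realize v x ↔ φ.Realize v' x') := by
  have hsym : ∀ {β : Type} {s t : β → M0}, Sim s t → Sim t s := fun {β s t} h =>
    (hB.2.2.2 β β s t s).2.1 h
  have hcomp : ∀ {β γ : Type} {s t : β → M0} (g : γ → β), Sim s t → Sim (s ∘ g) (t ∘ g) :=
    fun {β γ s t} g h => (hB.2.2.2 β γ s t s).2.2.2 g h
  induction φ with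
  | falsum => intro v v' x x' _; exact Iff.rfl
  | equal t₁ t₂ =>
    intro v v' x x' h
    obtain ⟨i, rfl⟩ := inv_term_var t₁
    obtain ⟨j, rfl⟩ := inv_term_var t₂
    simp only [BoundedFormula.Realize, Term.realize_var]
    exact h.eq i j
  | @rel n l R ts =>
    intro v v' x x' h
    choose w hw using fun i => inv_term_var (ts i)
    simp only [BoundedFormula.Realize]
    have e1 : (fun i => (ts i).realize (Sum.elim v x)) = (Sum.elim v x) ∘ w := by
      funext i; simp [hw]
    have e2 : (fun i => (ts i).realize (Sum.elim v' x')) = (Sum.elim v' x') ∘ w := by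
      funext i; simp [hw]
    rw [e1, e2]
    have hc := hcomp w h
    cases R with
    | P => exact hc.P 0
    | lin =>
      have h3 := hc.lin (Finsupp.equivFunOnFinite.symm fun _ => 1)
      rw [inv_lc_one, inv_lc_one] at h3
      exact h3
  | imp _ _ ih₁ ih₂ =>
    intro v v' x x' h
    simp only [BoundedFormula.Realize]
    rw [ih₁ v v' x x' h, ih₂ v v' x x' h]
  | @all n φ ih =>
    have key : ∀ (v v' : α → M0) (x x' : Fin n → M0),
        Sim (Sum.elim v x) (Sum.elim v' x') → (∀ a, φ.Realize v (Fin.snoc x a)) →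
          ∀ a, φ.Realize v' (Fin.snoc x' a) := by
      intro v v' x x' h hall a'
      obtain ⟨y, hy⟩ := hF (α ⊕ Fin n) (Sum.elim v' x') (Sum.elim v x) (hsym h) a'
      have h2 := hcomp (Sum.elim (fun i => Sum.inl (Sum.inl i))
          (Fin.snoc (α := fun _ => (α ⊕ Fin n) ⊕ Unit) (fun i => Sum.inl (Sum.inr i))
            (Sum.inr ()))) hy
      have e : ∀ (u : α → M0) (z : Fin n → M0) (b : M0),
          Sum.elim (Sum.elim u z) (fun _ : Unit => b) ∘ (Sum.elim (fun i => Sum.inl (Sum.inl i))
          (Fin.snoc (α := fun _ => (α ⊕ Fin n) ⊕ Unit) (fun i => Sum.inl (Sum.inr i))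
            (Sum.inr ()))) = Sum.elim u (Fin.snoc z b) := by
        intro u z b
        funext i
        rcases i with i | i
        · rfl
        · refine Fin.lastCases ?_ (fun i => ?_) i
          · simp
          · simp
      rw [e, e] at h2
      exact (ih v' v (Fin.snoc x' a') (Fin.snoc x y) h2).2 (hall y)
    intro v v' x x' h
    simp only [BoundedFormula.Realize]
    exact ⟨key v v' x x' h, key v' v x' x (hsym h)⟩

theorem inv : S_INV := by
  intro hB hF α _ s t h φ
  have hcomp := (hB.2.2.2 α (α ⊕ Fin 0) s t s).2.2.2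
  have h2 := hcomp (Sum.elim id (fun i : Fin 0 => i.elim0)) h
  have e : ∀ u : α → M0, u ∘ (Sum.elim id (fun i : Fin 0 => i.elim0)) = Sum.elim u (default : Fin 0 → M0) := by
    intro u
    funext i
    rcases i with i | i
    · rfl
    · exact i.elim0
  rw [e, e] at h2
  exact inv_aux hB hF φ s t default default h2

end Run7.h520.MZ
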