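import Pool.Agent.Run7.h520.MZ.I

/-! Piece STR: which types are strongly minimal. -/

set_option autoImplicit false

namespace Run7.h520.MZ

open FirstOrder FirstOrder.Language

theorem str_val_ne (x : M0) : val x ≠ 0 := by
  rcases x with p | x
  · intro h
    have := congrArg Prod.snd h
    simp [val] at this
  · intro h
    have := congrArg Prod.fst h
    exact x.1.2 (by simpa [val] using this)

theorem str_lc (x : M0) (c : Fin 1 →₀ ZMod 2) : lc (fun _ : Fin 1 => x) c = 0 ↔ c 0 = 0 := by
  unfold lc
  rw [Finsupp.linearCombination_apply, Finsupp.sum_fintype _ _ (by simp)]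
  simp only [Finset.univ_unique, Fin.default_eq_zero, Fin.isValue, Finset.sum_singleton]
  constructor
  · intro h
    rcases smul_eq_zero.1 h with h | h
    · exact h
    · exact absurd h (str_val_ne x)
  · intro h
    rw [h, zero_smul]

theorem str_sim (x y : M0) (h : isP x ↔ isP y) :
    Sim (fun _ : Fin 1 => x) (fun _ : Fin 1 => y) where
  P := fun _ => h
  eq := fun _ _ => by simp
  lin := fun c => by rw [str_lc, str_lc]

theorem str_inP (x : M0) : inP x ↔ isP x := Iff.rfl

/-- the symbol `P` -/
def strP : LZ.Relations 1 := Rel.P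

/-- the symbol `lin 3` -/
def strL : LZ.Relations 3 := Rel.lin 3

theorem str_rel {N : Type} [LZ.Structure N] {α : Type} (t : LZ.Term α) (v : α → N) :
    (Relations.formula₁ strP t).Realize v ↔ inP (t.realize v) := Formula.realize_rel₁

theorem str : S_STR := by
  intro hB hI hF hSM p x hx
  have hcount : Countable M0 := hB.2.1
  have hinf : Infinite M0 := hB.2.2.1
  have hne : Nonempty M0 := inferInstance
  have hM0 : M0 ⊨ T0 := inferInstanceAs (M0 ⊨ LZ.completeTheory M0)
  have htp : ∀ y z : M0, (isP y ↔ isP z) → ∀ φ : LZ.Formula (Fin 1),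
      φ.Realize (fun _ => y) ↔ φ.Realize (fun _ => z) := fun y z h =>
    hI hB hF (Fin 1) _ _ (str_sim y z h)
  have h2 : isP x → ∀ y : M0, isP y → Real p y := by
    intro hxP y hy φ
    exact (hx φ).trans (htp x y ⟨fun _ => hy, fun _ => hxP⟩ φ)
  refine ⟨⟨?_, ?_⟩, h2⟩
  · -- a strongly minimal type is the type of a point of `P`
    rintro ⟨⟨φ, hφ, hstr⟩, -⟩
    by_contra hxP
    have hφx : φ.Realize (fun _ : Fin 1 => x) := (hx φ).1 hφ
    have hall : ∀ y : M0, ¬ isP y → φ.Realize (fun _ : Fin 1 => y) := fun y hy =>
      (htp x y ⟨fun h => absurd h hxP, fun h => absurd h hy⟩ φ).1 hφx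
    obtain ⟨e, he⟩ : ∃ e : V, e ≠ 0 := exists_ne 0
    obtain ⟨e', he', hee⟩ : ∃ e' : V, e' ≠ 0 ∧ e' ≠ e := by
      by_cases h : Finsupp.single 0 (1 : ZMod 2) = e
      · refine ⟨Finsupp.single 1 1, by simp, ?_⟩
        rw [← h]
        intro h3
        have h4 := DFunLike.congr_fun h3 0
        simp at h4
      · exact ⟨Finsupp.single 0 1, by simp, h⟩
    let D : Set M0 := {y | val y = (e, 0)}
    have hD : (Set.univ : Set M0).Definable₁ LZ D := by
      unfold Set.Definable₁
      rw [Set.definable_iff_exists_formula_sum]
      refine ⟨Relations.formula strL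
        ![Term.var (Sum.inl ⟨Sum.inl 0, Set.mem_univ _⟩), Term.var (Sum.inl ⟨Sum.inl e, Set.mem_univ _⟩),
          Term.var (Sum.inr 0)], ?_⟩
      ext v
      simp only [Set.mem_ofPred_eq, Formula.realize_rel]
      have e1 : (fun i : Fin 3 => Term.realize (L := LZ) (Sum.elim (fun a : (Set.univ : Set M0) => (a : M0)) v)
          ((![Term.var (Sum.inl ⟨Sum.inl 0, Set.mem_univ _⟩), Term.var (Sum.inl ⟨Sum.inl e, Set.mem_univ _⟩),
          Term.var (Sum.inr 0)] : Fin 3 → LZ.Term ((Set.univ : Set M0) ⊕ Fin 1)) i)) =
          ![Sum.inl 0, Sum.inl e, v 0] := by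
        funext i
        fin_cases i <;> rfl
      have e2 : Structure.RelMap (L := LZ) (M := M0) (n := 3) strL ![Sum.inl 0, Sum.inl e, v 0] ↔
          val (v 0) = (e, 0) := by
        show ∑ i, val ((![Sum.inl 0, Sum.inl e, v 0] : Fin 3 → M0) i) = 0 ↔ _
        rw [Fin.sum_univ_three]
        simp only [Fin.isValue, Matrix.cons_val]
        have e3 : (val (Sum.inl 0 : M0) + val (Sum.inl e : M0) : V × ZMod 2) = (e, 0) := by
          ext1
          · show (0 : V) + e = e
            rw [zero_add]
          · show (1 : ZMod 2) + 1 = 0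
            decide
        rw [e3]
        have hch : ∀ z : V × ZMod 2, z + z = 0 := by
          rintro ⟨a, b⟩
          ext1
          · show a + a = 0
            ext i
            have : ∀ t : ZMod 2, t + t = 0 := by decide
            exact this (a i)
          · show b + b = 0
            have : ∀ t : ZMod 2, t + t = 0 := by decide
            exact this b
        constructor
        · intro h
          have : val (v 0) = (e, 0) + ((e, 0) + val (v 0)) := by
            rw [← add_assoc, hch, zero_add]
          rw [this, h, add_zero]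
        · intro h
          rw [h, hch]
      have e4 := congrArg (fun w => Structure.RelMap (L := LZ) (M := M0) (n := 3) strL w) e1
      exact (e2.symm.trans (iff_of_eq e4.symm))
    have hinfD : ∀ (w : V) (hw : w ≠ 0), Set.Infinite (Set.range fun k : ℕ => (Sum.inr (⟨w, hw⟩, k) : M0)) := by
      intro w hw
      apply Set.infinite_range_of_injective
      intro k k' hkk
      have := Sum.inr_injective hkk
      exact (Prod.ext_iff.1 this).2
    obtain ⟨-, h5⟩ := hstr M0
    rcases h5 D hD with h5 | h5
    · refine hinfD e he (h5.subset ?_)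
      rintro _ ⟨k, rfl⟩
      exact ⟨hall _ (fun h => h), rfl⟩
    · refine hinfD e' he' (h5.subset ?_)
      rintro _ ⟨k, rfl⟩
      refine ⟨hall _ (fun h => h), fun h => hee ?_⟩
      exact (Prod.ext_iff.1 h).1
  · intro hxP
    refine ⟨⟨Relations.formula₁ strP (Term.var 0), (hx _).2 ?_, ?_⟩, ?_⟩
    · rw [str_rel]
      exact hxP
    · intro M _ _ _
      have e1 : {y : M | (Relations.formula₁ strP (Term.var (0 : Fin 1))).Realize (fun _ => y)} =
          {y : M | inP y} := by
        ext y
        rw [Set.mem_ofPred_eq, str_rel]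
        rfl
      rw [e1]
      exact hSM M
    · intro φ hφ M _ _ _
      have hφx : φ.Realize (fun _ : Fin 1 => x) := (hx φ).1 hφ
      let θ : LZ.Formula (Empty ⊕ Fin 1) :=
        (Relations.formula₁ strP (Term.var (Sum.inr 0))).imp (φ.relabel Sum.inr)
      have key : ∀ (N : Type) [LZ.Structure N], N ⊨ (θ.iAlls (Fin 1) : LZ.Sentence) ↔
          ∀ y : N, inP y → φ.Realize (fun _ : Fin 1 => y) := by
        intro N _
        unfold Sentence.Realize
        rw [Formula.realize_iAlls]
        constructor
        · intro h y hy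
          have h3 := h (fun _ => y)
          rw [Formula.realize_imp, str_rel, Formula.realize_relabel] at h3
          exact h3 hy
        · intro h i
          rw [Formula.realize_imp, str_rel, Formula.realize_relabel]
          intro h4
          have h5 := h (i 0) h4
          have e5 : (fun _ : Fin 1 => i 0) = (fun a => Sum.elim (default : Empty → N) i a) ∘ Sum.inr := by
            funext j
            rw [Subsingleton.elim j 0]
            rfl
          rw [e5] at h5
          exact h5
      have h0 : M0 ⊨ (θ.iAlls (Fin 1) : LZ.Sentence) := by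
        rw [key]
        intro y hy
        exact (htp x y ⟨fun _ => hy, fun _ => hxP⟩ φ).1 hφx
      have : M ⊨ LZ.completeTheory M0 := ‹M ⊨ T0›
      have h1 : M ⊨ (θ.iAlls (Fin 1) : LZ.Sentence) :=
        (realize_iff_of_model_completeTheory M0 M _).2 h0
      rw [key] at h1
      exact (hSM M).1.mono fun y hy => h1 y hy

end Run7.h520.MZ
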