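import Pool.Agent.Run7.h520.MZ.I

/-! Piece TYP: complete 1-types are realized in `M0`. -/

set_option autoImplicit false

namespace Run7.h520.MZ

open FirstOrder FirstOrder.Language

theorem typ_inf (hB : S_BAS) (N : Type) [LZ.Structure N] [hN : N ⊨ T0] : Infinite N := by
  have hI : Infinite M0 := hB.2.2.1
  have : N ⊨ LZ.completeTheory M0 := hN
  have h : N ≅[LZ] M0 := elementarilyEquivalent_iff.2 fun φ =>
    realize_iff_of_model_completeTheory M0 N φ
  exact (ElementarilyEquivalent.infinite_iff h).2 hI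

theorem typ : S_TYP := by
  intro hB hC p
  have hcount : Countable M0 := hB.2.1
  have hinf : Infinite M0 := hB.2.2.1
  have hM0 : M0 ⊨ T0 := inferInstanceAs (M0 ⊨ LZ.completeTheory M0)
  obtain ⟨M, v, hv⟩ := Theory.exists_modelType_is_realized_in T0 p
  have hMi : Infinite M := typ_inf hB M
  obtain ⟨S, hS, hcard⟩ := exists_elementarySubstructure_card_eq LZ ({v 0} : Set M)
    (Cardinal.aleph0 : Cardinal.{0}) le_rfl (by simp) (by
      rw [Cardinal.lift_le]; exact hB.1) (by simp)
  have hSc : Cardinal.mk S = Cardinal.aleph0 := by simpa using hcard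
  have hSm : S ⊨ T0 := inferInstance
  have hv0 : v 0 ∈ S := hS (Set.mem_singleton _)
  have hne : Nonempty S := ⟨⟨v 0, hv0⟩⟩
  obtain ⟨f⟩ : Nonempty (S ≃[LZ] M0) := hC (Theory.ModelType.of T0 S) (Theory.ModelType.of T0 M0) hSc
    (Cardinal.mk_eq_aleph0 M0)
  let w : S := ⟨v 0, hv0⟩
  refine ⟨f w, fun φ => ?_⟩
  have h1 : φ.Realize (f ∘ (fun _ : Fin 1 => w)) ↔ φ.Realize (fun _ : Fin 1 => w) :=
    StrongHomClass.realize_formula f φ
  have h2 := S.subtype.map_formula φ (fun _ : Fin 1 => w)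
  have e : v = (S.subtype : S → M) ∘ (fun _ : Fin 1 => w) := by
    funext i
    rw [Subsingleton.elim i 0]
    rfl
  rw [← e] at h2
  have h3 : Formula.equivSentence φ ∈ p ↔ φ.Realize v := by
    rw [← hv]
    exact Theory.CompleteType.formula_mem_typeOf
  exact h3.trans (h2.trans h1.symm)

end Run7.h520.MZ
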